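import Pool.Agent.NH22.NC.Cut

/-!
# The number of the pairs `(n, m)` with `y < |π ^ n - e ^ m| ≤ x`

Unconditionally, for the pair `(π, e)` of the problem (and for all `a, b > 1`): for `0 < y ≤ x` and all
`T` between `C log x` and the tower `2 ^ 2 ^ ... ^ 2` of height `h`, the number of the pairs `(n, m)`
with `n ≤ T` and `y < |π ^ n - e ^ m| ≤ x` is `((log x) ^ 2 - (log⁺ y) ^ 2) / log π` up to an error
`≤ C (log x + log⁺ (1 / y) + h)`.  So the asymptotic `(log x) ^ 2 / log π` of the question holds if the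
pairs at a distance at most `exp (- o ((log x) ^ 2))` and those with `n` above a tower of height
`o ((log x) ^ 2)` are left out; nothing about the rational approximations of `log π` is assumed.

Proof: the pairs with `a ^ n > x ^ 2` lie on the lines through primitive near misses, of which there
are at most `h + C` with `n ≤ tower h`, and the sum of their reciprocals converges
(`Pool.Agent.TH709.NC`).  On a line `(g n₀, g m₀)` the distance grows at least by the factor `a ^ n₀`
from one point to the next one, so at most `1 + log (x / y) / (n₀ log a)` points are at a distance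
between `y` and `x`.
-/

set_option autoImplicit false

namespace Pool.Agent.Results.MP_606be1_nt.CountBetween

open Real

/-- the tower `2 ^ 2 ^ ... ^ 2` of height `h` -/
def tower : ℕ → ℕ
  | 0 => 1
  | h + 1 => 2 ^ tower h

/-- the pairs `(n, m)` with `n ≤ T` and `y < |a ^ n - b ^ m| ≤ x` -/
def between (a b y x : ℝ) (T : ℕ) : Set (ℕ × ℕ) :=
  {p | p.1 ≤ T ∧ y < |a ^ p.1 - b ^ p.2| ∧ |a ^ p.1 - b ^ p.2| ≤ x}

theorem tower_eq (h : ℕ) : tower h = Pool.Agent.TH709.NC.tow h := by
  induction h with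
  | zero => rfl
  | succ h ih => rw [tower, Pool.Agent.TH709.NC.tow, ih]

theorem general (a b : ℝ) (ha : 1 < a) (hb : 1 < b) : ∃ C : ℝ, 0 < C ∧ ∀ x y : ℝ, 2 ≤ x → 0 < y →
    y ≤ x → ∀ T h : ℕ, C * log x ≤ T → T ≤ tower h →
    (between a b y x T).Finite ∧
    |((between a b y x T).ncard : ℝ) - (log x ^ 2 - max (log y) 0 ^ 2) / (log a * log b)| ≤
      C * (log x + max (-log y) 0 + h) := by
  obtain ⟨C, hC, H⟩ := Pool.Agent.NH22.NC.cut ha hb
  refine ⟨C, hC, fun x y hx hy hyx T h h1 h2 => ?_⟩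
  rw [tower_eq] at h2
  exact H x y hx hy hyx T h h1 h2

/-- **Theorem.** (1) There is `C > 0` such that for all `x ≥ 2` and all `T` between `C log x` and the
tower of height `⌈log x⌉`, the number of the pairs `(n, m)` with `n ≤ T` and
`1 / x < |π ^ n - e ^ m| ≤ x` is `(log x) ^ 2 / log π` up to an error `≤ C log x`.
(2) There is `C > 0` such that for all `x ≥ 2`, `0 < y ≤ x`, all `h` and all `T` between `C log x` and
the tower of height `h`, the number of the pairs with `n ≤ T` and `y < |π ^ n - e ^ m| ≤ x` is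
`((log x) ^ 2 - (log⁺ y) ^ 2) / log π` up to an error `≤ C (log x + log⁺ (1 / y) + h)`.
(3) The same for all real `a, b > 1` instead of `π, e`, with `log a * log b` instead of `log π`. -/
theorem result :
    (∃ C : ℝ, 0 < C ∧ ∀ x : ℝ, 2 ≤ x → ∀ T : ℕ, C * log x ≤ T → T ≤ tower ⌈log x⌉₊ →
      (between π (exp 1) (1 / x) x T).Finite ∧
      |((between π (exp 1) (1 / x) x T).ncard : ℝ) - log x ^ 2 / log π| ≤ C * log x) ∧
    (∃ C : ℝ, 0 < C ∧ ∀ x y : ℝ, 2 ≤ x → 0 < y → y ≤ x → ∀ T h : ℕ, C * log x ≤ T →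
      T ≤ tower h →
      (between π (exp 1) y x T).Finite ∧
      |((between π (exp 1) y x T).ncard : ℝ) - (log x ^ 2 - max (log y) 0 ^ 2) / log π| ≤
        C * (log x + max (-log y) 0 + h)) ∧
    (∀ a b : ℝ, 1 < a → 1 < b → ∃ C : ℝ, 0 < C ∧ ∀ x y : ℝ, 2 ≤ x → 0 < y → y ≤ x →
      ∀ T h : ℕ, C * log x ≤ T → T ≤ tower h →
      (between a b y x T).Finite ∧
      |((between a b y x T).ncard : ℝ) - (log x ^ 2 - max (log y) 0 ^ 2) / (log a * log b)| ≤
        C * (log x + max (-log y) 0 + h)) := by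
  have hpi : 1 < π := by linarith [pi_gt_three]
  have he : 1 < exp 1 := by
    rw [one_lt_exp_iff]
    norm_num
  have h2 : ∃ C : ℝ, 0 < C ∧ ∀ x y : ℝ, 2 ≤ x → 0 < y → y ≤ x → ∀ T h : ℕ, C * log x ≤ T →
      T ≤ tower h →
      (between π (exp 1) y x T).Finite ∧
      |((between π (exp 1) y x T).ncard : ℝ) - (log x ^ 2 - max (log y) 0 ^ 2) / log π| ≤
        C * (log x + max (-log y) 0 + h) := by
    obtain ⟨C, hC, H⟩ := general π (exp 1) hpi he
    refine ⟨C, hC, fun x y hx hy hyx T h h1 h2 => ?_⟩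
    have := H x y hx hy hyx T h h1 h2
    rwa [Real.log_exp, mul_one] at this
  refine ⟨?_, h2, fun a b ha hb => general a b ha hb⟩
  obtain ⟨C, hC, H⟩ := h2
  have hl2 : 0 < log 2 := log_pos (by norm_num)
  refine ⟨C * (3 + 1 / log 2), by positivity, fun x hx T hT1 hT2 => ?_⟩
  have hx0 : 0 < x := by linarith
  have hlx : log 2 ≤ log x := Real.log_le_log (by norm_num) hx
  have hlx0 : 0 < log x := by linarith
  have h1 : 1 / x ≤ x := by
    rw [div_le_iff₀ hx0]
    nlinarith
  have h3 : C * log x ≤ T := by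
    refine le_trans ?_ hT1
    have : 0 ≤ C * log x := by positivity
    have h4 : (1 : ℝ) ≤ 3 + 1 / log 2 := by
      have : 0 < 1 / log 2 := by positivity
      linarith
    nlinarith
  obtain ⟨f, h4⟩ := H x (1 / x) hx (by positivity) h1 T ⌈log x⌉₊ h3 hT2
  refine ⟨f, ?_⟩
  have e1 : log (1 / x) = -log x := by rw [one_div, Real.log_inv]
  have e2 : max (log (1 / x)) 0 = 0 := by
    rw [e1]
    exact max_eq_right (by linarith)
  have e3 : max (-log (1 / x)) 0 = log x := by
    rw [e1, neg_neg]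
    exact max_eq_left hlx0.le
  rw [e2, e3] at h4
  have e4 : log x ^ 2 - (0 : ℝ) ^ 2 = log x ^ 2 := by ring
  rw [e4] at h4
  refine h4.trans ?_
  have h5 : (⌈log x⌉₊ : ℝ) ≤ log x + 1 := (Nat.ceil_lt_add_one hlx0.le).le
  have h6 : (1 : ℝ) ≤ 1 / log 2 * log x := by
    rw [div_mul_eq_mul_div, le_div_iff₀ hl2]
    linarith
  have h7 : log x + log x + (⌈log x⌉₊ : ℝ) ≤ (3 + 1 / log 2) * log x := by
    have e5 : (3 + 1 / log 2) * log x = 3 * log x + 1 / log 2 * log x := by ring
    rw [e5]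
    linarith
  calc C * (log x + log x + (⌈log x⌉₊ : ℝ)) ≤ C * ((3 + 1 / log 2) * log x) :=
        mul_le_mul_of_nonneg_left h7 hC.le
    _ = C * (3 + 1 / log 2) * log x := by ring

end Pool.Agent.Results.MP_606be1_nt.CountBetween
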