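import Pool.Agent.NH22.NC.Generic

/-!
# Long intervals of scales on which the formula for near-coincidences holds, or fails

Let `N(x, T)` be the number of the pairs `(n, m)` with `n ≤ T` and `|a ^ n - b ^ m| ≤ x`; the question is
about `a = π`, `b = e` and `T = ∞`.  If `log a / log b` is irrational, there is `C` such that for all
`A, ε > 0` there are arbitrarily large `X` such that

  `N(x, T) = (log x) ^ 2 / (log a log b) + O(log x)` for ALL `x` in `[X ^ ε, X]` and all `T` between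
  `C log x` and `x ^ A`.

(If `log π` is rational the answer to the question is negative.)  On the other hand, for a generic base
`a` (a comeagre set of them), for which `log a / log b` is irrational, `N(x, ∞) = ∞` for all `x > 0`, and
for all `ε > 0` there are arbitrarily large `X` such that for ALL `x` in `[X ^ ε, X]` at least
`√x - 1` pairs with `n ≤ x` are even at a distance at most `1 / x`; so the formula fails on such
intervals, and the first part cannot hold for all large `x` for general bases.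

Proof of the first part: the pairs with `a ^ n > x ^ 2` lie on the lines through primitive near misses
`(n₀, m₀)`.  If `D = |a ^ n₀ - b ^ m₀|` and `n₁` is the next one, then `1 / D ≤ n₁` and
`2 ^ (c n₀) ≤ n₁`.  The multiples of `(n₀, m₀)` do not matter if `log (1 / D) ≤ n₀ log x`, in particular
for `n₁ ^ (1 / n₀) ≤ x`, and the lines from `n₁` on are not used for `T < n₁`.
-/

set_option autoImplicit false

namespace Pool.Agent.Results.MP_606be1_nt.Scales

open Real Filter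

/-- the pairs `(n, m)` with `|a ^ n - b ^ m| ≤ x` -/
def pairs (a b x : ℝ) : Set (ℕ × ℕ) := {p | |a ^ p.1 - b ^ p.2| ≤ x}

/-- the pairs `(n, m)` with `n ≤ T` and `|a ^ n - b ^ m| ≤ x` -/
def pairsUpTo (a b x T : ℝ) : Set (ℕ × ℕ) := {p | (p.1 : ℝ) ≤ T ∧ |a ^ p.1 - b ^ p.2| ≤ x}

/-- for all `T` between `C log x` and `x ^ A` the number of the pairs with `n ≤ T` is
`(log x) ^ 2 / (log a log b)` up to an error `≤ C log x` -/
def Formula (A C a b x : ℝ) : Prop := ∀ T : ℕ, C * log x ≤ T → (T : ℝ) ≤ x ^ A →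
  (pairsUpTo a b x T).Finite ∧
  |((pairsUpTo a b x T).ncard : ℝ) - log x ^ 2 / (log a * log b)| ≤ C * log x

theorem general (a b : ℝ) (ha : 1 < a) (hb : 1 < b) (hirr : Irrational (log a / log b)) :
    ∃ C : ℝ, 0 < C ∧ ∀ A ε X₀ : ℝ, 0 < A → 0 < ε → ∃ X : ℝ, X₀ ≤ X ∧ ∀ x : ℝ, X ^ ε ≤ x → x ≤ X →
      2 ≤ x ∧ Formula A C a b x := by
  obtain ⟨C, hC, H⟩ := Pool.Agent.NH22.NC.scales ha hb hirr
  refine ⟨C, hC, fun A ε X₀ hA hε => ?_⟩
  obtain ⟨X, hX, H1⟩ := H A ε X₀ hA hε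
  refine ⟨X, hX, fun x hx1 hx2 => ⟨(H1 x hx1 hx2).1, fun T hT1 hT2 => ?_⟩⟩
  have e : pairsUpTo a b x T = {p : ℕ × ℕ | p.1 ≤ T ∧ |a ^ p.1 - b ^ p.2| ≤ x} := by
    ext p
    simp [pairsUpTo]
  rw [e]
  exact (H1 x hx1 hx2).2 T hT1 hT2

/-- **Theorem.** (1) If `log π` is irrational, there is `C > 0` such that for all `A, ε > 0` there are
arbitrarily large `X` such that for all `x` in `[X ^ ε, X]` and all `T` between `C log x` and `x ^ A`
the number of the pairs `(n, m)` with `n ≤ T` and `|π ^ n - e ^ m| ≤ x` is `(log x) ^ 2 / log π` up to an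
error `≤ C log x`.
(2) The same for all real `a, b > 1` with irrational `log a / log b`.
(3) Let `b > 1`.  For all `a > 1` in a comeagre set `log a / log b` is irrational, infinitely many pairs
satisfy `|a ^ n - b ^ m| ≤ x` for every `x > 0`, and for every `ε > 0` there are arbitrarily large `X`
such that for all `x` in `[X ^ ε, X]` the number of the pairs with `n ≤ x` and
`|a ^ n - b ^ m| ≤ 1 / x` is finite and at least `√x - 1`. -/
theorem result :
    (Irrational (log π) → ∃ C : ℝ, 0 < C ∧ ∀ A ε X₀ : ℝ, 0 < A → 0 < ε → ∃ X : ℝ, X₀ ≤ X ∧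
      ∀ x : ℝ, X ^ ε ≤ x → x ≤ X → 2 ≤ x ∧ ∀ T : ℕ, C * log x ≤ T → (T : ℝ) ≤ x ^ A →
        (pairsUpTo π (exp 1) x T).Finite ∧
        |((pairsUpTo π (exp 1) x T).ncard : ℝ) - log x ^ 2 / log π| ≤ C * log x) ∧
    (∀ a b : ℝ, 1 < a → 1 < b → Irrational (log a / log b) → ∃ C : ℝ, 0 < C ∧ ∀ A ε X₀ : ℝ,
      0 < A → 0 < ε → ∃ X : ℝ, X₀ ≤ X ∧ ∀ x : ℝ, X ^ ε ≤ x → x ≤ X →
        2 ≤ x ∧ Formula A C a b x) ∧
    (∀ b : ℝ, 1 < b → ∀ᶠ a : ℝ in residual ℝ, 1 < a →
      Irrational (log a / log b) ∧ (∀ x : ℝ, 0 < x → (pairs a b x).Infinite) ∧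
      ∀ ε X₀ : ℝ, 0 < ε → ∃ X : ℝ, X₀ ≤ X ∧ ∀ x : ℝ, X ^ ε ≤ x → x ≤ X →
        {p | p ∈ pairs a b (1 / x) ∧ (p.1 : ℝ) ≤ x}.Finite ∧
        √x - 1 ≤ ({p | p ∈ pairs a b (1 / x) ∧ (p.1 : ℝ) ≤ x}.ncard : ℝ)) := by
  refine ⟨fun hirr => ?_, general, fun b hb => ?_⟩
  · have hpi : 1 < π := by linarith [pi_gt_three]
    have he : 1 < exp 1 := by
      rw [one_lt_exp_iff]
      norm_num
    obtain ⟨C, hC, H⟩ := general π (exp 1) hpi he (by rwa [Real.log_exp, div_one])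
    refine ⟨C, hC, fun A ε X₀ hA hε => ?_⟩
    obtain ⟨X, hX, H1⟩ := H A ε X₀ hA hε
    refine ⟨X, hX, fun x hx1 hx2 => ⟨(H1 x hx1 hx2).1, fun T hT1 hT2 => ?_⟩⟩
    have := (H1 x hx1 hx2).2 T hT1 hT2
    rwa [Real.log_exp, mul_one] at this
  · filter_upwards [Pool.Agent.NH22.NC.generic hb] with a h ha
    obtain ⟨h1, h2, h3⟩ := h ha
    refine ⟨h1, h2, fun ε X₀ hε => ?_⟩
    obtain ⟨X, hX, h4⟩ := h3 ε X₀ hε
    refine ⟨X, hX, fun x hx1 hx2 => ?_⟩
    have e : {p | p ∈ pairs a b (1 / x) ∧ (p.1 : ℝ) ≤ x} =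
        {p : ℕ × ℕ | (p.1 : ℝ) ≤ x ∧ |a ^ p.1 - b ^ p.2| ≤ 1 / x} := by
      ext p
      exact and_comm
    rw [e]
    exact h4 x hx1 hx2

end Pool.Agent.Results.MP_606be1_nt.Scales
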