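import Pool.Agent.NH81.NC.Close

/-!
# The second term of the number of the near-coincidences of the powers of `π` and `e`

Unconditionally, for the pair `(π, e)` of the problem, and for all real bases `a, b ≥ e`: let `x` be large
and let `T` be a natural number with `2 log x ≤ T ≤ 2 ^ 2 ^ ... ^ 2` (`h` twos).

* (1) The pairs `(n, m)` with `n ≤ T`, `min (a ^ n, b ^ m) > x` and `1 / x < |a ^ n - b ^ m| ≤ x` are
  negligible also for the second term: there are at most `ε log x + h` of them (for all `a, b > 1`).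
* (2) The number of all the other pairs with `|a ^ n - b ^ m| ≤ x`, together with those of (1), is between
  `(log x) ^ 2 / (log a log b)` and
  `(log x) ^ 2 / (log a log b) + (1 / log a + 1 / log b + ε) log x + h`.
* (3), (4) Both bounds are sharp in the second term: the difference between the number of the pairs and
  `(log x) ^ 2 / (log a log b)`, divided by `log x`, has the upper limit `1 / log a + 1 / log b` and the
  lower limit `0`.

Nothing is assumed on the irrationality or on the rational approximations of `log a / log b`.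
-/

set_option autoImplicit false

namespace Pool.Agent.Results.MP_606be1_nt.SecondTerm

open Real Pool.Agent.NH81.NC

/-- the tower `2 ^ 2 ^ ... ^ 2` of height `h` -/
def tower : ℕ → ℕ
  | 0 => 1
  | h + 1 => 2 ^ tower h

/-- the pairs `(n, m)` with `n ≤ T` and `1 / x < |a ^ n - b ^ m| ≤ x` such that both powers are greater
than `x` -/
def far (a b x : ℝ) (T : ℕ) : Set (ℕ × ℕ) :=
  {p | p.1 ≤ T ∧ 1 / x < |a ^ p.1 - b ^ p.2| ∧ |a ^ p.1 - b ^ p.2| ≤ x ∧ x < a ^ p.1 ∧ x < b ^ p.2}

/-- the pairs `(n, m)` with `n ≤ T` and `|a ^ n - b ^ m| ≤ x`; if both powers are greater than `x` their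
distance is required to be greater than `1 / x` -/
def pairs (a b x : ℝ) (T : ℕ) : Set (ℕ × ℕ) :=
  {p | p.1 ≤ T ∧ |a ^ p.1 - b ^ p.2| ≤ x ∧
    (x < a ^ p.1 → x < b ^ p.2 → 1 / x < |a ^ p.1 - b ^ p.2|)}

theorem tower_eq (h : ℕ) : tower h = Pool.Agent.TH709.NC.tow h := by
  induction h with
  | zero => rfl
  | succ h ih => rw [tower, Pool.Agent.TH709.NC.tow, ih]

variable {a b : ℝ}

theorem far_bound (ha : 1 < a) (hb : 1 < b) {ε : ℝ} (hε : 0 < ε) : ∃ x₀ : ℝ, ∀ x : ℝ,
    x₀ ≤ x → ∀ T h : ℕ, T ≤ tower h →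
    (far a b x T).Finite ∧ ((far a b x T).ncard : ℝ) ≤ ε * log x + h := by
  obtain ⟨x₀, H⟩ := Pool.Agent.NH81.NC.far ha hb hε
  refine ⟨x₀, fun x hx T h hT => ?_⟩
  rw [tower_eq] at hT
  have e : far a b x T = {p : ℕ × ℕ | p.1 ≤ T ∧ (1 / x < |a ^ p.1 - b ^ p.2| ∧
      |a ^ p.1 - b ^ p.2| ≤ x) ∧ x < a ^ p.1 ∧ x < b ^ p.2} := by
    ext p
    simp only [far, Set.mem_ofPred_eq]
    tauto
  rw [e]
  exact H x hx T h hT

/-- the decomposition -/
theorem pairs_eq (ha : 1 ≤ log a) (ha1 : 1 < a) {x : ℝ} (hx : 2 ≤ x) {T : ℕ}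
    (hT : 2 * log x ≤ T) : pairs a b x T = Nr a b x ∪ far a b x T := by
  have hx0 : 0 < x := by linarith
  ext p
  simp only [pairs, Nr, far, Set.mem_union, Set.mem_ofPred_eq]
  constructor
  · rintro ⟨h1, h2, h3⟩
    rcases le_or_gt (a ^ p.1) x with h4 | h4
    · exact Or.inl ⟨h2, Or.inl h4⟩
    · rcases le_or_gt (b ^ p.2) x with h5 | h5
      · exact Or.inl ⟨h2, Or.inr h5⟩
      · exact Or.inr ⟨h1, h3 h4 h5, h2, h4, h5⟩
  · rintro (⟨h1, h2⟩ | ⟨h1, h2, h3, h4, h5⟩)
    · refine ⟨?_, h1, fun h3 h4 => ?_⟩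
      · have h3 : a ^ p.1 ≤ 2 * x := by
          rw [abs_le] at h1
          rcases h2 with h2 | h2
          · linarith
          · linarith [h1.2]
        have h4 : a ^ p.1 ≤ x ^ 2 := h3.trans (by nlinarith)
        have h5 := (Pool.Agent.H491R3.PE.pow_le_iff_log ha1 (by positivity) p.1).1 h4
        rw [Real.log_pow] at h5
        have h6 : ((2 : ℕ) : ℝ) * log x / log a ≤ 2 * log x := by
          push_cast
          exact div_le_self (by have := log_nonneg (by linarith : 1 ≤ x); linarith) ha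
        exact_mod_cast h5.trans (h6.trans hT)
      · rcases h2 with h2 | h2
        · exact absurd h3 (not_lt.2 h2)
        · exact absurd h4 (not_lt.2 h2)
    · exact ⟨h1, h3, fun _ _ => h2⟩

/-- **Theorem for bases `a, b ≥ e`.** -/
theorem general (ha : exp 1 ≤ a) (hb : exp 1 ≤ b) :
    (∀ ε : ℝ, 0 < ε → ∃ x₀ : ℝ, ∀ x : ℝ, x₀ ≤ x → ∀ T h : ℕ, 2 * log x ≤ T → T ≤ tower h →
      (pairs a b x T).Finite ∧
      log x ^ 2 / (log a * log b) ≤ (pairs a b x T).ncard ∧
      ((pairs a b x T).ncard : ℝ) ≤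
        log x ^ 2 / (log a * log b) + (1 / log a + 1 / log b + ε) * log x + h) ∧
    (∀ ε X : ℝ, 0 < ε → ∃ x : ℝ, X ≤ x ∧ ∀ T h : ℕ, 2 * log x ≤ T → T ≤ tower h →
      log x ^ 2 / (log a * log b) + (1 / log a + 1 / log b - ε) * log x ≤
        (pairs a b x T).ncard) ∧
    (∀ ε X : ℝ, 0 < ε → ∃ x : ℝ, X ≤ x ∧ ∀ T h : ℕ, 2 * log x ≤ T → T ≤ tower h →
      ((pairs a b x T).ncard : ℝ) ≤ log x ^ 2 / (log a * log b) + ε * log x + h) := by
  have he2 : (2 : ℝ) < exp 1 := by linarith [Real.exp_one_gt_d9]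
  have ha2 : 2 < a := by linarith
  have hb2 : 2 < b := by linarith
  have ha1 : 1 < a := by linarith
  have hb1 : 1 < b := by linarith
  have hla : 1 ≤ log a := by
    rw [Real.le_log_iff_exp_le (by linarith)]
    exact ha
  have hlb : 1 ≤ log b := by
    rw [Real.le_log_iff_exp_le (by linarith)]
    exact hb
  have hA : 0 < log a := by linarith
  have hB : 0 < log b := by linarith
  -- lower bound with explicit exponents
  have low : ∀ ε : ℝ, 0 < ε → ∃ x₀ : ℝ, 2 ≤ x₀ ∧ ∀ x : ℝ, x₀ ≤ x → ∀ T h : ℕ, 2 * log x ≤ T →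
      T ≤ tower h → (pairs a b x T).Finite ∧ (Nr a b x).Finite ∧
      ((Nr a b x).ncard : ℝ) ≤ (pairs a b x T).ncard ∧
      ((pairs a b x T).ncard : ℝ) ≤ (Nr a b x).ncard + (ε * log x + h) := by
    intro ε hε
    obtain ⟨x₁, H1⟩ := far_bound ha1 hb1 hε
    obtain ⟨x₂, _, H2⟩ := near_upper_all ha2 hb2 hla hlb one_pos
    refine ⟨max (max x₁ x₂) 2, le_max_right _ _, fun x hx T h hT1 hT2 => ?_⟩
    have hxa : x₁ ≤ x := ((le_max_left _ _).trans (le_max_left _ _)).trans hx
    have hxb : x₂ ≤ x := ((le_max_right _ _).trans (le_max_left _ _)).trans hx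
    have hxc : 2 ≤ x := (le_max_right _ _).trans hx
    obtain ⟨f1, g1⟩ := H1 x hxa T h hT2
    obtain ⟨f2, _⟩ := H2 x hxb
    rw [pairs_eq hla ha1 hxc hT1]
    refine ⟨f2.union f1, f2, ?_, ?_⟩
    · exact_mod_cast Set.ncard_le_ncard Set.subset_union_left (f2.union f1)
    · have h1 : ((Nr a b x ∪ far a b x T).ncard : ℝ) ≤ (Nr a b x).ncard + (far a b x T).ncard := by
        exact_mod_cast Set.ncard_union_le (Nr a b x) (far a b x T)
      linarith
  refine ⟨fun ε hε => ?_, fun ε X hε => ?_, fun ε X hε => ?_⟩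
  · obtain ⟨x₁, hx₁, H1⟩ := low (ε / 2) (by positivity)
    obtain ⟨x₂, _, H2⟩ := near_upper_all ha2 hb2 hla hlb (ε := ε / 2) (by positivity)
    refine ⟨max x₁ x₂, fun x hx T h hT1 hT2 => ?_⟩
    have hxa : x₁ ≤ x := (le_max_left _ _).trans hx
    have hxb : x₂ ≤ x := (le_max_right _ _).trans hx
    have hx1 : 1 ≤ x := by linarith
    have hx0 : 0 < x := by linarith
    have hlx : 0 ≤ log x := log_nonneg hx1
    obtain ⟨f, fN, g1, g2⟩ := H1 x hxa T h hT1 hT2
    obtain ⟨_, g3⟩ := H2 x hxb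
    refine ⟨f, le_trans ?_ g1, ?_⟩
    · obtain ⟨n, hn⟩ : ∃ n, n = ⌊log x / log a⌋₊ := ⟨_, rfl⟩
      obtain ⟨m, hm⟩ : ∃ m, m = ⌊log x / log b⌋₊ := ⟨_, rfl⟩
      have h1 : a ^ n ≤ x := by
        rw [Pool.Agent.H491R3.PE.pow_le_iff_log ha1 hx0, hn]
        exact Nat.floor_le (by positivity)
      have h2 : b ^ m ≤ x := by
        rw [Pool.Agent.H491R3.PE.pow_le_iff_log hb1 hx0, hm]
        exact Nat.floor_le (by positivity)
      refine le_trans ?_ (near_lower ha1 hb1 hx1 n m h1 h2 fN)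
      have h3 : log x / log a ≤ (n : ℝ) + 1 := by rw [hn]; exact (Nat.lt_floor_add_one _).le
      have h4 : log x / log b ≤ (m : ℝ) + 1 := by rw [hm]; exact (Nat.lt_floor_add_one _).le
      have e : log x ^ 2 / (log a * log b) = (log x / log a) * (log x / log b) := by
        field_simp
      rw [e]
      exact mul_le_mul h3 h4 (by positivity) (by positivity)
    · refine g2.trans ?_
      have e : (1 / log a + 1 / log b + ε) * log x =
          (1 / log a + 1 / log b + ε / 2) * log x + ε / 2 * log x := by ring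
      rw [e]
      linarith
  · -- sharpness of the upper bound
    obtain ⟨x₁, hx₁, H1⟩ := low 1 one_pos
    obtain ⟨θ, hθ⟩ : ∃ θ, θ = log a / log b := ⟨_, rfl⟩
    have hθ0 : 0 < θ := by rw [hθ]; positivity
    obtain ⟨δ, hδ⟩ : ∃ δ, δ = min (1 / 2) (ε / 2) := ⟨_, rfl⟩
    have hδ0 : 0 < δ := by rw [hδ]; exact lt_min (by norm_num) (by positivity)
    have hδ1 : δ ≤ 1 / 2 := by rw [hδ]; exact min_le_left _ _
    have hδ2 : δ ≤ ε / 2 := by rw [hδ]; exact min_le_right _ _
    obtain ⟨M, hM⟩ := exists_nat_ge (max (max x₁ X) (1 / θ))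
    have hM1 : x₁ ≤ M := ((le_max_left _ _).trans (le_max_left _ _)).trans hM
    have hM2 : X ≤ M := ((le_max_right _ _).trans (le_max_left _ _)).trans hM
    have hM3 : 1 ≤ M * θ := by
      have := (le_max_right _ _).trans hM
      rwa [div_le_iff₀ hθ0] at this
    have hη : 0 < δ / log b := by positivity
    have hη1 : δ / log b < 1 := by
      rw [div_lt_one hB]
      linarith
    obtain ⟨n, m, hn, _, hnm⟩ := dirichlet θ hθ0 hη hη1 M hM3
    have hcl : |(n : ℝ) * log a - m * log b| ≤ δ := by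
      have e : (n : ℝ) * log a - m * log b = ((n : ℝ) * θ - m) * log b := by
        rw [hθ]
        field_simp
      rw [e, abs_mul, abs_of_pos hB]
      calc |(n : ℝ) * θ - m| * log b ≤ δ / log b * log b :=
            mul_le_mul_of_nonneg_right hnm hB.le
        _ = δ := by field_simp
    rw [abs_le] at hcl
    obtain ⟨x, hx⟩ : ∃ x, x = max (a ^ n) (b ^ m) := ⟨_, rfl⟩
    have hxn : a ^ n ≤ x := by rw [hx]; exact le_max_left _ _
    have hxm : b ^ m ≤ x := by rw [hx]; exact le_max_right _ _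
    have hMx : (M : ℝ) ≤ x := by
      have h1 : (n : ℝ) ≤ a ^ n := by
        have h2 : (n : ℝ) ≤ 2 ^ n := by exact_mod_cast Nat.lt_two_pow_self.le
        exact h2.trans (pow_le_pow_left₀ (by norm_num) ha2.le n)
      have h2 : (M : ℝ) ≤ n := by exact_mod_cast hn
      linarith
    have hx0 : 0 < x := by linarith
    have hx1 : 1 ≤ x := by linarith
    have hL0 : 0 ≤ log x := log_nonneg hx1
    have hL : log x ≤ n * log a + δ ∧ log x ≤ m * log b + δ := by
      rcases le_total (a ^ n) (b ^ m) with h | h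
      · have e : x = b ^ m := by rw [hx]; exact max_eq_right h
        rw [e, Real.log_pow]
        constructor <;> linarith [hcl.1]
      · have e : x = a ^ n := by rw [hx]; exact max_eq_left h
        rw [e, Real.log_pow]
        constructor <;> linarith [hcl.2]
    refine ⟨x, hM2.trans hMx, fun T h hT1 hT2 => ?_⟩
    obtain ⟨_, fN, g1, _⟩ := H1 x (hM1.trans hMx) T h hT1 hT2
    refine le_trans ?_ ((near_lower ha1 hb1 hx1 n m hxn hxm fN).trans g1)
    have h1 : log x / log a + (1 - δ) ≤ (n : ℝ) + 1 := by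
      have h2 : log x / log a ≤ n + δ := by
        rw [div_le_iff₀ hA]
        nlinarith [hL.1]
      linarith
    have h2 : log x / log b + (1 - δ) ≤ (m : ℝ) + 1 := by
      have h2 : log x / log b ≤ m + δ := by
        rw [div_le_iff₀ hB]
        nlinarith [hL.2]
      linarith
    have h3 : (log x / log a + (1 - δ)) * (log x / log b + (1 - δ)) ≤ ((n : ℝ) + 1) * (m + 1) :=
      mul_le_mul h1 h2 (by have := div_nonneg hL0 hB.le; linarith) (by positivity)
    refine le_trans ?_ h3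
    have h4 : log x / log a ≤ log x := div_le_self hL0 hla
    have h5 : log x / log b ≤ log x := div_le_self hL0 hlb
    have e1 : (log x / log a + (1 - δ)) * (log x / log b + (1 - δ)) =
        log x ^ 2 / (log a * log b) + (1 - δ) * (log x / log a + log x / log b) + (1 - δ) ^ 2 := by
      field_simp
      ring
    have e2 : (1 / log a + 1 / log b - ε) * log x = log x / log a + log x / log b - ε * log x := by
      ring
    rw [e1, e2]
    have h6 : δ * (log x / log a + log x / log b) ≤ δ * (2 * log x) :=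
      mul_le_mul_of_nonneg_left (by linarith) hδ0.le
    have h7 : δ * (2 * log x) ≤ ε / 2 * (2 * log x) := mul_le_mul_of_nonneg_right hδ2 (by linarith)
    nlinarith [sq_nonneg (1 - δ)]
  · -- sharpness of the lower bound
    obtain ⟨κ, hκ⟩ : ∃ κ, κ = min (1 / 2) (ε / 16) := ⟨_, rfl⟩
    have hκ0 : 0 < κ := by rw [hκ]; exact lt_min (by norm_num) (by positivity)
    have hκ1 : κ ≤ 1 / 2 := by rw [hκ]; exact min_le_left _ _
    have hκ2 : κ ≤ ε / 16 := by rw [hκ]; exact min_le_right _ _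
    obtain ⟨x₁, hx₁, H1⟩ := low (ε / 4) (by positivity)
    obtain ⟨D, hD⟩ : ∃ D, D = 3 - log (κ / log a) - log (κ / log b) := ⟨_, rfl⟩
    obtain ⟨x₂, hx₂⟩ : ∃ x₂ : ℝ, ∀ x, x₂ ≤ x → D ≤ ε / 2 * log x := by
      have h1 := (Real.tendsto_log_atTop.const_mul_atTop (by positivity : 0 < ε / 2)).eventually
        (Filter.eventually_ge_atTop D)
      exact Filter.eventually_atTop.1 h1
    obtain ⟨θ, hθ⟩ : ∃ θ, θ = log a / log b := ⟨_, rfl⟩
    have hθ0 : 0 < θ := by rw [hθ]; positivity
    obtain ⟨M, hM⟩ := exists_nat_ge (max (max (max x₁ x₂) X) (1 / θ))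
    have hM0 : x₁ ≤ M :=
      (((le_max_left _ _).trans (le_max_left _ _)).trans (le_max_left _ _)).trans hM
    have hM1 : x₂ ≤ M :=
      (((le_max_right _ _).trans (le_max_left _ _)).trans (le_max_left _ _)).trans hM
    have hM2 : X ≤ M := ((le_max_right _ _).trans (le_max_left _ _)).trans hM
    have hM3 : 1 ≤ M * θ := by
      have := (le_max_right _ _).trans hM
      rwa [div_le_iff₀ hθ0] at this
    have hη : 0 < κ / log b := by positivity
    have hη1 : κ / log b < 1 := by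
      rw [div_lt_one hB]
      linarith
    obtain ⟨n, m, hn, _, hnm⟩ := dirichlet θ hθ0 hη hη1 M hM3
    have hcl : |(n : ℝ) * log a - m * log b| ≤ κ := by
      have e : (n : ℝ) * log a - m * log b = ((n : ℝ) * θ - m) * log b := by
        rw [hθ]
        field_simp
      rw [e, abs_mul, abs_of_pos hB]
      calc |(n : ℝ) * θ - m| * log b ≤ κ / log b * log b :=
            mul_le_mul_of_nonneg_right hnm hB.le
        _ = κ := by field_simp
    rw [abs_le] at hcl
    obtain ⟨L, hL⟩ : ∃ L, L = min (n * log a) (m * log b) - κ := ⟨_, rfl⟩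
    have hL1 : L ≤ n * log a - κ := by rw [hL]; linarith [min_le_left (n * log a) (m * log b)]
    have hL2 : L ≤ m * log b - κ := by rw [hL]; linarith [min_le_right (n * log a) (m * log b)]
    have hL3 : n * log a - 2 * κ ≤ L ∧ m * log b - 2 * κ ≤ L := by
      rw [hL]
      rcases min_choice ((n : ℝ) * log a) (m * log b) with h | h <;> rw [h]
      · constructor <;> linarith [hcl.1]
      · constructor <;> linarith [hcl.2]
    have hMn : (M : ℝ) ≤ n := by exact_mod_cast hn
    have hLM : (M : ℝ) - 1 ≤ L := by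
      have h1 : (n : ℝ) * 1 ≤ n * log a := mul_le_mul_of_nonneg_left hla (Nat.cast_nonneg n)
      linarith [hL3.1]
    obtain ⟨x, hx⟩ : ∃ x, x = exp L := ⟨_, rfl⟩
    have hlx : log x = L := by rw [hx, Real.log_exp]
    have hMx : (M : ℝ) ≤ x := by
      rw [hx]
      linarith [Real.add_one_le_exp L]
    have hx1 : 1 ≤ x := by linarith
    have hL0 : 0 ≤ L := by rw [← hlx]; exact log_nonneg hx1
    refine ⟨x, hM2.trans hMx, fun T h hT1 hT2 => ?_⟩
    obtain ⟨_, fN, _, g2⟩ := H1 x (hM0.trans hMx) T h hT1 hT2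
    have g3 := hx₂ x (hM1.trans hMx)
    -- the fractional parts
    have ht : (n : ℝ) = log x / log a + (n - L / log a) := by rw [hlx]; ring
    have hs : (m : ℝ) = log x / log b + (m - L / log b) := by rw [hlx]; ring
    have ht0 : κ / log a ≤ n - L / log a := by
      rw [le_sub_iff_add_le, ← add_div, div_le_iff₀ hA]
      linarith
    have hs0 : κ / log b ≤ m - L / log b := by
      rw [le_sub_iff_add_le, ← add_div, div_le_iff₀ hB]
      linarith
    have ht1 : n - L / log a ≤ 2 * κ := by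
      rw [sub_le_iff_le_add, ← sub_le_iff_le_add', le_div_iff₀ hA]
      nlinarith [hL3.1]
    have hs1 : m - L / log b ≤ 2 * κ := by
      rw [sub_le_iff_le_add, ← sub_le_iff_le_add', le_div_iff₀ hB]
      nlinarith [hL3.2]
    have hka : 0 < κ / log a := by positivity
    have hkb : 0 < κ / log b := by positivity
    obtain ⟨_, g4⟩ := near_upper ha2 hb2 hla hlb hx1 ht (by linarith) (by linarith) hs
      (by linarith) (by linarith)
    rw [hlx] at g2 g3 g4
    rw [hlx]
    set t := (n : ℝ) - L / log a with htd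
    set s := (m : ℝ) - L / log b with hsd
    have h1 := min_le_right (L / log b + 1) (1 - log t)
    have h2 := min_le_right (L / log a + 1) (1 - log s)
    have h3 : log (κ / log a) ≤ log t := Real.log_le_log hka ht0
    have h4 : log (κ / log b) ≤ log s := Real.log_le_log hkb hs0
    have h5 : L / log a ≤ L := div_le_self hL0 hla
    have h6 : L / log b ≤ L := div_le_self hL0 hlb
    have e1 : (L / log a + t) * (L / log b + s) =
        L ^ 2 / (log a * log b) + t * (L / log b) + s * (L / log a) + t * s := by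
      field_simp
      ring
    have hLb : 0 ≤ L / log b := by positivity
    have hLa : 0 ≤ L / log a := by positivity
    have h7 : t * (L / log b) ≤ 2 * κ * L :=
      mul_le_mul ht1 h6 hLb (by positivity)
    have h8 : s * (L / log a) ≤ 2 * κ * L :=
      mul_le_mul hs1 h5 hLa (by positivity)
    have h9 : t * s ≤ 1 := by
      have h91 : t ≤ 1 := by linarith
      have h92 : s ≤ 1 := by linarith
      have h93 : 0 ≤ s := by linarith
      nlinarith
    have h10 : κ * L ≤ ε / 16 * L := mul_le_mul_of_nonneg_right hκ2 hL0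
    rw [e1] at g4
    linarith

/-- **Theorem.** For real `a, b > 1`, `ε > 0` and all large `x`: among the pairs `(n, m)` with `n ≤ T`,
`T` at most the tower of height `h`, at most `ε log x + h` satisfy `1 / x < |a ^ n - b ^ m| ≤ x` and
`min (a ^ n, b ^ m) > x`. For `π` and `e`, all large `x` and all `T ≥ 2 log x` at most the tower of
height `h` the number of the elements of `pairs π e x T` is between `(log x) ^ 2 / log π` and
`(log x) ^ 2 / log π + (1 + 1 / log π + ε) log x + h`; for arbitrarily large `x` it is at least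
`(log x) ^ 2 / log π + (1 + 1 / log π - ε) log x`, and for arbitrarily large `x` it is at most
`(log x) ^ 2 / log π + ε log x + h`. The same holds for all real `a, b ≥ e`, with `log a * log b` and
`1 / log a + 1 / log b`. -/
theorem result :
    (∀ a b : ℝ, 1 < a → 1 < b → ∀ ε : ℝ, 0 < ε → ∃ x₀ : ℝ, ∀ x : ℝ, x₀ ≤ x →
      ∀ T h : ℕ, T ≤ tower h →
      (far a b x T).Finite ∧ ((far a b x T).ncard : ℝ) ≤ ε * log x + h) ∧
    ((∀ ε : ℝ, 0 < ε → ∃ x₀ : ℝ, ∀ x : ℝ, x₀ ≤ x → ∀ T h : ℕ, 2 * log x ≤ T → T ≤ tower h →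
      (pairs π (exp 1) x T).Finite ∧
      log x ^ 2 / log π ≤ (pairs π (exp 1) x T).ncard ∧
      ((pairs π (exp 1) x T).ncard : ℝ) ≤
        log x ^ 2 / log π + (1 + 1 / log π + ε) * log x + h) ∧
    (∀ ε X : ℝ, 0 < ε → ∃ x : ℝ, X ≤ x ∧ ∀ T h : ℕ, 2 * log x ≤ T → T ≤ tower h →
      log x ^ 2 / log π + (1 + 1 / log π - ε) * log x ≤ (pairs π (exp 1) x T).ncard) ∧
    (∀ ε X : ℝ, 0 < ε → ∃ x : ℝ, X ≤ x ∧ ∀ T h : ℕ, 2 * log x ≤ T → T ≤ tower h →
      ((pairs π (exp 1) x T).ncard : ℝ) ≤ log x ^ 2 / log π + ε * log x + h)) ∧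
    (∀ a b : ℝ, exp 1 ≤ a → exp 1 ≤ b →
    (∀ ε : ℝ, 0 < ε → ∃ x₀ : ℝ, ∀ x : ℝ, x₀ ≤ x → ∀ T h : ℕ, 2 * log x ≤ T → T ≤ tower h →
      (pairs a b x T).Finite ∧
      log x ^ 2 / (log a * log b) ≤ (pairs a b x T).ncard ∧
      ((pairs a b x T).ncard : ℝ) ≤
        log x ^ 2 / (log a * log b) + (1 / log a + 1 / log b + ε) * log x + h) ∧
    (∀ ε X : ℝ, 0 < ε → ∃ x : ℝ, X ≤ x ∧ ∀ T h : ℕ, 2 * log x ≤ T → T ≤ tower h →
      log x ^ 2 / (log a * log b) + (1 / log a + 1 / log b - ε) * log x ≤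
        (pairs a b x T).ncard) ∧
    (∀ ε X : ℝ, 0 < ε → ∃ x : ℝ, X ≤ x ∧ ∀ T h : ℕ, 2 * log x ≤ T → T ≤ tower h →
      ((pairs a b x T).ncard : ℝ) ≤ log x ^ 2 / (log a * log b) + ε * log x + h)) := by
  refine ⟨fun a b ha hb ε hε => far_bound ha hb hε, ?_, fun a b ha hb => general ha hb⟩
  have hpi : exp 1 ≤ π := by linarith [pi_gt_three, Real.exp_one_lt_d9]
  obtain ⟨h1, h2, h3⟩ := general hpi (le_refl (exp 1))
  have e : log (exp 1) = 1 := Real.log_exp 1
  simp only [e, mul_one, div_one] at h1 h2 h3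
  simp only [add_comm (1 : ℝ) (1 / log π)]
  exact ⟨h1, h2, h3⟩

end Pool.Agent.Results.MP_606be1_nt.SecondTerm
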